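import Pool.Agent.H44.HC.Targets

set_option autoImplicit false

namespace Pool.Agent.H30.HC

open Finset Pool.Agent.H44.HC

/-- from a family of disjoint cliques covering everything to a label function -/
lemma of_parts {V : Type} [Fintype V] [DecidableEq V] (G : SimpleGraph V) (s : ℕ)
    (P : Finset V → Prop) (h1 : ∀ v, ∃ C, P C ∧ v ∈ C)
    (h2 : ∀ C D v, P C → P D → v ∈ C → v ∈ D → C = D)
    (h3 : ∀ C, P C → (∀ x ∈ C, ∀ y ∈ C, x ≠ y → G.Adj x y) ∧ s ≤ C.card) :
    ∃ q : V → V, CliquePart s G q := by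
  classical
  choose c hc hv using h1
  have hne : ∀ v, (c v).Nonempty := fun v => ⟨v, hv v⟩
  let rep : Finset V → V → V := fun C v => if h : C.Nonempty then h.choose else v
  have hrep : ∀ v w, rep (c v) w ∈ c v := by
    intro v w
    simp only [rep, dif_pos (hne v)]
    exact (hne v).choose_spec
  have hrep2 : ∀ v w w', rep (c v) w = rep (c v) w' := by
    intro v w w'
    simp only [rep, dif_pos (hne v)]
  have hcc : ∀ v w, w ∈ c v → c w = c v := fun v w h => h2 _ _ w (hc w) (hc v) (hv w) h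
  refine ⟨fun v => rep (c v) v, ?_, ?_⟩
  · intro x y hxy hne'
    have h4 : rep (c x) x ∈ c y := by
      have := hrep y y
      simp only at hxy
      rw [hxy]; exact this
    have h5 : c x = c y := h2 _ _ _ (hc x) (hc y) (hrep x x) h4
    exact (h3 _ (hc y)).1 x (h5 ▸ hv x) y (hv y) hne'
  · intro x
    refine le_trans (h3 _ (hc x)).2 (Finset.card_le_card ?_)
    intro y hy
    rw [Finset.mem_filter]
    refine ⟨Finset.mem_univ _, ?_⟩
    have h5 := hcc x y hy
    simp only
    rw [h5]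
    exact hrep2 x y x

theorem part (h : T_RAM) : T_PART := by
  classical
  intro V _ _ G r hr hS hN
  have e1 : (r - 1 + 7).choose (r - 1) = (r + 6).choose 7 := by
    have : r - 1 + 7 = r + 6 := by omega
    rw [this, ← Nat.choose_symm (show 7 ≤ r + 6 by omega)]
    congr 1
  have e2 : (r - 1 + 5).choose (r - 1) = (r + 4).choose 5 := by
    have : r - 1 + 5 = r + 4 := by omega
    rw [this, ← Nat.choose_symm (show 5 ≤ r + 4 by omega)]
    congr 1
  have hR0 : 0 < (r + 6).choose 7 := Nat.choose_pos (by omega)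
  generalize (r + 6).choose 7 = R at *
  generalize (r + 4).choose 5 = m at *
  have hr1 : r - 1 + 1 = r := by omega
  -- no large independent set in a neighbourhood
  have hind : ∀ (v : V) (T : Finset V), T.card = r → (∀ w ∈ T, G.Adj v w) →
      (T : Set V).Pairwise (fun a b => ¬ G.Adj a b) → False :=
    fun v T h1 h2 h3 => hS ⟨v, T, h1, h2, h3⟩
  -- maximal family
  let fam : Finset (Finset V) → Prop := fun F =>
    (∀ Q ∈ F, Q.card = 8 ∧ (Q : Set V).Pairwise (fun x y => G.Adj x y)) ∧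
    ∀ Q ∈ F, ∀ Q' ∈ F, Q ≠ Q' → Disjoint Q Q'
  have hex : ∃ F : Finset (Finset V), fam F ∧ ∀ F', fam F' → F'.card ≤ F.card := by
    have hne : ((Finset.univ : Finset (Finset (Finset V))).filter fam).Nonempty :=
      ⟨∅, by simp [fam]⟩
    obtain ⟨F, hF, hmax⟩ := Finset.exists_max_image _ (fun F : Finset (Finset V) => F.card) hne
    refine ⟨F, (Finset.mem_filter.mp hF).2, fun F' hF' => hmax F' ?_⟩
    exact Finset.mem_filter.mpr ⟨Finset.mem_univ _, hF'⟩
  obtain ⟨QQ, ⟨hQ1, hQ2⟩, hmax⟩ := hex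
  have huniq : ∀ Q ∈ QQ, ∀ Q' ∈ QQ, ∀ v, v ∈ Q → v ∈ Q' → Q = Q' := by
    intro Q hQ Q' hQ' v h1 h2
    by_contra hne
    exact Finset.disjoint_left.mp (hQ2 Q hQ Q' hQ' hne) h1 h2
  set Y : Finset V := QQ.biUnion id with hY
  set X : Finset V := Finset.univ \ Y with hX
  have hXY : ∀ v, v ∉ X → v ∈ Y := by
    intro v hv
    by_contra h'
    exact hv (by rw [hX, Finset.mem_sdiff]; exact ⟨Finset.mem_univ _, h'⟩)
  have hXnY : ∀ v ∈ X, v ∉ Y := by
    intro v hv
    rw [hX, Finset.mem_sdiff] at hv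
    exact hv.2
  -- step 2
  have hsmall : ∀ (v : V) (N : Finset V), (∀ w ∈ N, G.Adj v w) → N ⊆ X → N.card < R := by
    intro v N h1 h2
    by_contra hge
    push Not at hge
    rcases h V G (r - 1) 7 N (by rw [e1]; exact hge) with ⟨T, hT1, hT2, hT3⟩ | ⟨K, hK1, hK2, hK3⟩
    · exact hind v T (by rw [hT2, hr1]) (fun w hw => h1 w (hT1 hw)) hT3
    · have hKQ : K ∉ QQ := by
        intro hK
        have : K.Nonempty := by rw [← Finset.card_pos]; omega
        obtain ⟨x, hx⟩ := this
        exact hXnY x (h2 (hK1 hx)) (Finset.mem_biUnion.mpr ⟨K, hK, hx⟩)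
      have hdis : ∀ Q ∈ QQ, Disjoint K Q := by
        intro Q hQ
        rw [Finset.disjoint_left]
        intro x hx hx'
        exact hXnY x (h2 (hK1 hx)) (Finset.mem_biUnion.mpr ⟨Q, hQ, hx'⟩)
      have hf : fam (insert K QQ) := by
        refine ⟨?_, ?_⟩
        · intro Q hQ
          rcases Finset.mem_insert.mp hQ with rfl | hQ
          · exact ⟨by omega, hK3⟩
          · exact hQ1 Q hQ
        · intro Q hQ Q' hQ' hne
          rcases Finset.mem_insert.mp hQ with h3 | h3 <;>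
            rcases Finset.mem_insert.mp hQ' with h4 | h4
          · exact absurd (h3.trans h4.symm) hne
          · rw [h3]; exact hdis Q' h4
          · rw [h4]; exact (hdis Q h3).symm
          · exact hQ2 Q h3 Q' h4 hne
      have := hmax _ hf
      rw [Finset.card_insert_of_notMem hKQ] at this
      omega
  -- step 3
  choose N hN1 hN2 using hN
  let D : V → Finset (Finset V) := fun x => QQ.filter (fun Q => ∃ y ∈ Q, y ∈ N x)
  have hD : ∀ x, 8 * m * R ≤ (D x).card := by
    intro x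
    have h1 : (N x ∩ X).card < R :=
      hsmall x _ (fun w hw => hN1 x w (Finset.mem_inter.mp hw).1) Finset.inter_subset_right
    have h2 : (N x).card ≤ (N x ∩ X).card + (N x ∩ Y).card := by
      have : N x ⊆ (N x ∩ X) ∪ (N x ∩ Y) := by
        intro w hw
        rw [Finset.mem_union, Finset.mem_inter, Finset.mem_inter]
        by_cases hwX : w ∈ X
        · exact Or.inl ⟨hw, hwX⟩
        · exact Or.inr ⟨hw, hXY w hwX⟩
      exact (Finset.card_le_card this).trans (Finset.card_union_le _ _)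
    have h3 : (N x ∩ Y).card ≤ (D x).card * 8 := by
      have hsub : N x ∩ Y ⊆ (D x).biUnion id := by
        intro w hw
        rw [Finset.mem_inter] at hw
        obtain ⟨Q, hQ, hwQ⟩ := Finset.mem_biUnion.mp hw.2
        exact Finset.mem_biUnion.mpr ⟨Q, Finset.mem_filter.mpr ⟨hQ, w, hwQ, hw.1⟩, hwQ⟩
      refine (Finset.card_le_card hsub).trans ?_
      refine Finset.card_biUnion_le_card_mul _ _ _ ?_
      intro Q hQ
      exact (hQ1 Q (Finset.mem_filter.mp hQ).1).1.le
    have h4 := hN2 x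
    have h5 : 64 * m * R ≤ (D x).card * 8 := by omega
    have h6 : 8 * (8 * m * R) ≤ 8 * (D x).card := by
      calc 8 * (8 * m * R) = 64 * m * R := by ring
        _ ≤ (D x).card * 8 := h5
        _ = _ := by ring
    exact Nat.le_of_mul_le_mul_left h6 (by norm_num)
  -- Hall
  have hall : ∃ f : ({x // x ∈ X} × Fin m) → Finset V, Function.Injective f ∧
      ∀ p, f p ∈ D p.1.1 := by
    rw [← Finset.all_card_le_biUnion_card_iff_exists_injective
      (fun p : {x // x ∈ X} × Fin m => D p.1.1)]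
    intro s
    set S1 : Finset {x // x ∈ X} := s.image Prod.fst with hS1
    have h1 : s.card ≤ S1.card * m := by
      have : s ⊆ S1 ×ˢ (Finset.univ : Finset (Fin m)) := by
        intro p hp
        rw [Finset.mem_product]
        exact ⟨Finset.mem_image_of_mem _ hp, Finset.mem_univ _⟩
      refine (Finset.card_le_card this).trans ?_
      rw [Finset.card_product, Finset.card_univ, Fintype.card_fin]
    have hNs : s.biUnion (fun p => D p.1.1) = S1.biUnion (fun x => D x.1) := by
      ext Q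
      simp only [Finset.mem_biUnion, hS1, Finset.mem_image]
      constructor
      · rintro ⟨p, hp, hQ⟩
        exact ⟨p.1, ⟨p, hp, rfl⟩, hQ⟩
      · rintro ⟨x, ⟨p, hp, rfl⟩, hQ⟩
        exact ⟨p, hp, hQ⟩
    rw [hNs]
    have h2 : S1.card * (8 * m * R) ≤ (S1.biUnion (fun x => D x.1)).card * (8 * R) := by
      refine Finset.card_mul_le_card_mul (fun (x : {x // x ∈ X}) (Q : Finset V) => Q ∈ D x.1) ?_ ?_
      · intro x hx
        refine (hD x.1).trans (Finset.card_le_card ?_)
        intro Q hQ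
        rw [Finset.mem_bipartiteAbove]
        exact ⟨Finset.mem_biUnion.mpr ⟨x, hx, hQ⟩, hQ⟩
      · intro Q hQ
        obtain ⟨x0, hx0, hQx0⟩ := Finset.mem_biUnion.mp hQ
        have hQQ : Q ∈ QQ := (Finset.mem_filter.mp hQx0).1
        have hsub : (Finset.bipartiteBelow (fun (x : {x // x ∈ X}) (Q : Finset V) => Q ∈ D x.1)
            S1 Q).image Subtype.val ⊆ Q.biUnion (fun y => X.filter (fun x => G.Adj y x)) := by
          intro x hx
          obtain ⟨x', hx', rfl⟩ := Finset.mem_image.mp hx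
          rw [Finset.mem_bipartiteBelow] at hx'
          obtain ⟨_, y, hy, hyN⟩ := Finset.mem_filter.mp hx'.2
          refine Finset.mem_biUnion.mpr ⟨y, hy, Finset.mem_filter.mpr ⟨x'.2, ?_⟩⟩
          exact (hN1 x'.1 y hyN).symm
        rw [← Finset.card_image_of_injective _ Subtype.val_injective]
        refine (Finset.card_le_card hsub).trans ?_
        have := Finset.card_biUnion_le_card_mul Q (fun y => X.filter (fun x => G.Adj y x)) R ?_
        · rw [(hQ1 Q hQQ).1] at this
          exact this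
        · intro y _
          exact (hsmall y _ (fun w hw => (Finset.mem_filter.mp hw).2) (Finset.filter_subset _ _)).le
    have h3 : (8 * R) * (S1.card * m) ≤ (8 * R) * (S1.biUnion (fun x => D x.1)).card := by
      calc (8 * R) * (S1.card * m) = S1.card * (8 * m * R) := by ring
        _ ≤ _ := h2
        _ = _ := by ring
    exact h1.trans (Nat.le_of_mul_le_mul_left h3 (by omega))
  obtain ⟨f, hfinj, hfD⟩ := hall
  have hfQ : ∀ p, f p ∈ QQ := fun p => (Finset.mem_filter.mp (hfD p)).1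
  have hfy : ∀ p, ∃ y ∈ f p, y ∈ N p.1.1 := fun p => (Finset.mem_filter.mp (hfD p)).2
  choose y hy1 hy2 using hfy
  have hyinj : ∀ p p', y p = y p' → p = p' := by
    intro p p' hpp
    apply hfinj
    exact huniq _ (hfQ p) _ (hfQ p') (y p) (hy1 p) (by rw [hpp]; exact hy1 p')
  have hK : ∀ x : {x // x ∈ X}, ∃ K : Finset V, K.card = 6 ∧
      (K : Set V).Pairwise (fun x y => G.Adj x y) ∧ (∀ v ∈ K, ∃ i, v = y (x, i)) := by
    intro x
    have hc : (Finset.univ.image (fun i : Fin m => y (x, i))).card = m := by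
      rw [Finset.card_image_of_injective, Finset.card_univ, Fintype.card_fin]
      intro i j hij
      exact (Prod.ext_iff.mp (hyinj _ _ hij)).2
    rcases h V G (r - 1) 5 (Finset.univ.image (fun i : Fin m => y (x, i)))
      (by rw [e2, hc]) with ⟨T, hT1, hT2, hT3⟩ | ⟨K, hK1, hK2, hK3⟩
    · exfalso
      refine hind x.1 T (by rw [hT2, hr1]) ?_ hT3
      intro w hw
      obtain ⟨i, _, rfl⟩ := Finset.mem_image.mp (hT1 hw)
      exact hN1 x.1 _ (hy2 (x, i))
    · refine ⟨K, by omega, hK3, ?_⟩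
      intro v hv
      obtain ⟨i, _, hi⟩ := Finset.mem_image.mp (hK1 hv)
      exact ⟨i, hi.symm⟩
  choose K hK1 hK2 hK3 using hK
  have hKY : ∀ x, ∀ v ∈ K x, v ∈ Y := by
    intro x v hv
    obtain ⟨i, rfl⟩ := hK3 x v hv
    exact Finset.mem_biUnion.mpr ⟨f (x, i), hfQ _, hy1 _⟩
  have hKadj : ∀ x, ∀ v ∈ K x, G.Adj x.1 v := by
    intro x v hv
    obtain ⟨i, rfl⟩ := hK3 x v hv
    exact hN1 _ _ (hy2 (x, i))
  have hKdis : ∀ x x' v, v ∈ K x → v ∈ K x' → x = x' := by
    intro x x' v h1 h2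
    obtain ⟨i, hi⟩ := hK3 x v h1
    obtain ⟨j, hj⟩ := hK3 x' v h2
    exact (Prod.ext_iff.mp (hyinj _ _ (hi.symm.trans hj))).1
  let St : Finset V := Finset.univ.filter (fun v => ∃ x, v ∈ K x)
  have hSt : ∀ v, v ∈ St ↔ ∃ x, v ∈ K x := by
    intro v; simp [St]
  have hStQ : ∀ Q ∈ QQ, ∀ v ∈ Q, ∀ w ∈ Q, v ∈ St → w ∈ St → v = w := by
    intro Q hQ v hv w hw h1 h2
    obtain ⟨x, hx⟩ := (hSt v).mp h1
    obtain ⟨x', hx'⟩ := (hSt w).mp h2
    obtain ⟨i, hi⟩ := hK3 x v hx
    obtain ⟨j, hj⟩ := hK3 x' w hx'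
    have h3 : f (x, i) = Q := huniq _ (hfQ _) _ hQ v (by rw [hi]; exact hy1 _) hv
    have h4 : f (x', j) = Q := huniq _ (hfQ _) _ hQ w (by rw [hj]; exact hy1 _) hw
    rw [hi, hj, hfinj (h3.trans h4.symm)]
  refine of_parts G 7 (fun C => (∃ x : {x // x ∈ X}, C = insert x.1 (K x)) ∨
    (∃ Q ∈ QQ, C = Q \ St)) ?_ ?_ ?_
  · intro v
    by_cases hv : v ∈ X
    · exact ⟨_, Or.inl ⟨⟨v, hv⟩, rfl⟩, Finset.mem_insert_self _ _⟩
    · by_cases hs : v ∈ St
      · obtain ⟨x, hx⟩ := (hSt v).mp hs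
        exact ⟨_, Or.inl ⟨x, rfl⟩, Finset.mem_insert_of_mem hx⟩
      · obtain ⟨Q, hQ, hvQ⟩ := Finset.mem_biUnion.mp (hXY v hv)
        exact ⟨_, Or.inr ⟨Q, hQ, rfl⟩, Finset.mem_sdiff.mpr ⟨hvQ, hs⟩⟩
  · have hcase : ∀ (x : {x // x ∈ X}) (Q : Finset V) (v : V), Q ∈ QQ → v ∈ insert x.1 (K x) →
        v ∈ Q \ St → False := by
      intro x Q v hQ h1 h2
      rw [Finset.mem_sdiff] at h2
      rcases Finset.mem_insert.mp h1 with h3 | h3
      · rw [h3] at h2
        exact hXnY x.1 x.2 (Finset.mem_biUnion.mpr ⟨Q, hQ, h2.1⟩)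
      · exact h2.2 ((hSt v).mpr ⟨x, h3⟩)
    rintro C D' v (⟨x, rfl⟩ | ⟨Q, hQ, rfl⟩) (⟨x', rfl⟩ | ⟨Q', hQ', rfl⟩) h1 h2
    · have : x = x' := by
        rcases Finset.mem_insert.mp h1 with h3 | h3 <;> rcases Finset.mem_insert.mp h2 with h4 | h4
        · exact Subtype.ext (h3.symm.trans h4)
        · exact absurd (hKY x' v h4) (h3 ▸ hXnY x.1 x.2)
        · exact absurd (hKY x v h3) (h4 ▸ hXnY x'.1 x'.2)
        · exact hKdis x x' v h3 h4
      rw [this]
    · exact (hcase x Q' v hQ' h1 h2).elim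
    · exact (hcase x' Q v hQ h2 h1).elim
    · rw [huniq Q hQ Q' hQ' v (Finset.mem_sdiff.mp h1).1 (Finset.mem_sdiff.mp h2).1]
  · rintro C (⟨x, rfl⟩ | ⟨Q, hQ, rfl⟩)
    · refine ⟨?_, ?_⟩
      · intro u hu w hw hne
        rcases Finset.mem_insert.mp hu with h3 | h3 <;> rcases Finset.mem_insert.mp hw with h4 | h4
        · exact absurd (h3.trans h4.symm) hne
        · rw [h3]; exact hKadj x w h4
        · rw [h4]; exact (hKadj x u h3).symm
        · exact hK2 x h3 h4 hne
      · rw [Finset.card_insert_of_notMem, hK1]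
        intro hx
        exact hXnY x.1 x.2 (hKY x _ hx)
    · refine ⟨?_, ?_⟩
      · intro u hu w hw hne
        exact (hQ1 Q hQ).2 (Finset.mem_sdiff.mp hu).1 (Finset.mem_sdiff.mp hw).1 hne
      · have h5 : (Q ∩ St).card ≤ 1 := by
          rw [Finset.card_le_one]
          intro a ha b hb
          rw [Finset.mem_inter] at ha hb
          exact hStQ Q hQ a ha.1 b hb.1 ha.2 hb.2
        have h6 := Finset.card_sdiff_add_card_inter Q St
        rw [(hQ1 Q hQ).1] at h6
        omega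

end Pool.Agent.H30.HC
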