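import Pool.Agent.H44.HC.Targets

set_option autoImplicit false

namespace Pool.Agent.H30.HC

open Finset Pool.Agent.H44.HC

section

variable {ι B : Type} [DecidableEq ι] [DecidableEq B]

/-- the boundary of an edge -/
def phi (a b : ι → B) (e : ι) : B → ZMod 2 :=
  fun v => (if a e = v then 1 else 0) + (if b e = v then 1 else 0)

/-- the boundary of a set of edges -/
def Phi (a b : ι → B) (J : Finset ι) : B → ZMod 2 := ∑ e ∈ J, phi a b e

lemma two_smul_fun (f : B → ZMod 2) : f + f = 0 := by
  funext v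
  exact CharTwo.add_self_eq_zero _

lemma Phi_symmDiff (a b : ι → B) (J K : Finset ι) :
    Phi a b (symmDiff J K) = Phi a b J + Phi a b K := by
  have hJ : Phi a b J = ∑ e ∈ J \ K, phi a b e + ∑ e ∈ J ∩ K, phi a b e := by
    unfold Phi
    rw [← Finset.sum_union (Finset.disjoint_sdiff_inter J K), Finset.sdiff_union_inter]
  have hK : Phi a b K = ∑ e ∈ K \ J, phi a b e + ∑ e ∈ J ∩ K, phi a b e := by
    unfold Phi
    rw [Finset.inter_comm, ← Finset.sum_union (Finset.disjoint_sdiff_inter K J),
      Finset.sdiff_union_inter]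
  have hS : Phi a b (symmDiff J K) = ∑ e ∈ J \ K, phi a b e + ∑ e ∈ K \ J, phi a b e := by
    unfold Phi
    rw [symmDiff_def, Finset.sup_eq_union, Finset.sum_union]
    exact disjoint_sdiff_sdiff
  rw [hS, hJ, hK]
  have := two_smul_fun (∑ e ∈ J ∩ K, phi a b e)
  calc _ = (∑ e ∈ J \ K, phi a b e + ∑ e ∈ K \ J, phi a b e) + 0 := by rw [add_zero]
    _ = (∑ e ∈ J \ K, phi a b e + ∑ e ∈ K \ J, phi a b e) +
        (∑ e ∈ J ∩ K, phi a b e + ∑ e ∈ J ∩ K, phi a b e) := by rw [this]
    _ = _ := by abel

lemma Phi_apply (a b : ι → B) (J : Finset ι) (v : B) :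
    Phi a b J v = ((ends a b J v : ℕ) : ZMod 2) := by
  unfold Phi ends phi
  rw [Finset.sum_apply, Finset.sum_add_distrib, Nat.cast_add]
  congr 1
  · rw [Finset.card_filter]; push_cast; rfl
  · rw [Finset.card_filter]; push_cast; rfl

/-- vertex pairs linked by T2 -/
lemma link_mem (a b : ι → B) (T2 : Finset ι) (u v : B) (h : Link a b T2 u v) :
    ∃ J ⊆ T2, Phi a b J = fun w => (if u = w then 1 else 0) + (if v = w then 1 else 0) := by
  unfold Link at h
  induction h with
  | rel x y h =>
    obtain ⟨t, ht, h1, h2⟩ := h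
    refine ⟨{t}, by simpa using ht, ?_⟩
    unfold Phi
    rw [Finset.sum_singleton]
    unfold phi
    rw [h1, h2]
  | refl x =>
    refine ⟨∅, by simp, ?_⟩
    unfold Phi
    rw [Finset.sum_empty]
    funext w
    exact (CharTwo.add_self_eq_zero _).symm
  | symm x y _ ih =>
    obtain ⟨J, hJ, h⟩ := ih
    refine ⟨J, hJ, ?_⟩
    rw [h]
    funext w
    exact add_comm _ _
  | trans x y z _ _ ih1 ih2 =>
    obtain ⟨J, hJ, h⟩ := ih1
    obtain ⟨K, hK, h'⟩ := ih2
    refine ⟨symmDiff J K, ?_, ?_⟩
    · intro e he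
      rw [Finset.mem_symmDiff] at he
      rcases he with he | he
      · exact hJ he.1
      · exact hK he.1
    · rw [Phi_symmDiff, h, h']
      funext w
      simp only [Pi.add_apply]
      have := CharTwo.add_self_eq_zero (if y = w then (1 : ZMod 2) else 0)
      calc _ = (if x = w then (1 : ZMod 2) else 0) + (if z = w then 1 else 0) +
            ((if y = w then (1 : ZMod 2) else 0) + (if y = w then (1 : ZMod 2) else 0)) := by ring
        _ = _ := by rw [this, add_zero]

end

theorem tj : T_TJ := by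
  intro ι B _ _ a b T1 T2 h
  have key : ∃ J ⊆ T2, Phi a b J = Phi a b T1 := by
    induction T1 using Finset.induction_on with
    | empty => exact ⟨∅, by simp, rfl⟩
    | insert e T he ih =>
      obtain ⟨J, hJ, h1⟩ := ih (fun x hx => h x (Finset.mem_insert_of_mem hx))
      obtain ⟨K, hK, h2⟩ := link_mem a b T2 _ _ (h e (Finset.mem_insert_self e T))
      refine ⟨symmDiff K J, ?_, ?_⟩
      · intro x hx
        rw [Finset.mem_symmDiff] at hx
        rcases hx with hx | hx
        · exact hK hx.1
        · exact hJ hx.1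
      · rw [Phi_symmDiff, h1, h2]
        unfold Phi
        rw [Finset.sum_insert he]
        rfl
  obtain ⟨J, hJ, h1⟩ := key
  refine ⟨J, hJ, fun v => ?_⟩
  have h2 := congrFun h1 v
  rw [Phi_apply, Phi_apply] at h2
  rw [← ZMod.natCast_eq_zero_iff_even, Nat.cast_add, h2]
  exact CharTwo.add_self_eq_zero _

end Pool.Agent.H30.HC
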